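import Pool.Agent.H39.VQ.Targets

/-!
# The slices of the off-diagonal parts are plank functions (module DK of the vq board)
-/

set_option autoImplicit false

open Finset Polynomial

namespace Pool.Agent.H48.VQ

open Pool.Agent.H11.CV Pool.Agent.H39.VQ

theorem dk_slc_inv {G : Type} [AddCommGroup G] (M : ℕ) (v w : G) (r : ℕ) (h : G → ℂ)
    (hw : ∀ g, h (g + w) = h g) (g : G) : slc M v r h (g + w) = slc M v r h g := by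
  unfold slc
  congr 1
  apply Finset.sum_congr rfl
  intro t _
  rw [show g + w + t • v = (g + t • v) + w by abel, hw]

/-- the polynomial of the second invariance -/
theorem dk_P2 (p m a : ℕ) (w₂ ξ : ℤ) (ha : 2 * a ≤ m) (h2 : (p : ℤ) ^ m ∣ 2 * w₂ - 1) (y : ℤ) :
    (p : ℤ) ^ m ∣ (C ((p : ℤ) ^ (m - 2 * a)) * (C w₂ * X ^ 2 - C ξ * X) : ℤ[X]).eval
        (ξ + (p : ℤ) ^ a * y) -
      (C ((p : ℤ) ^ (m - 2 * a)) * (C w₂ * X ^ 2 - C ξ * X) : ℤ[X]).eval ξ := by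
  obtain ⟨c, hc⟩ := h2
  have hm : (p : ℤ) ^ m = (p : ℤ) ^ (m - 2 * a) * ((p : ℤ) ^ a * (p : ℤ) ^ a) := by
    rw [← pow_add, ← pow_add]; congr 1; omega
  refine ⟨(p : ℤ) ^ (m - 2 * a) * (c * ξ * ((p : ℤ) ^ a * y)) + w₂ * y ^ 2, ?_⟩
  simp only [eval_mul, eval_C, eval_sub, eval_pow, eval_X]
  have h3 : (p : ℤ) ^ (m - 2 * a) * (w₂ * (ξ + (p : ℤ) ^ a * y) ^ 2 - ξ * (ξ + (p : ℤ) ^ a * y)) -
      (p : ℤ) ^ (m - 2 * a) * (w₂ * ξ ^ 2 - ξ * ξ) =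
      (p : ℤ) ^ (m - 2 * a) * ((2 * w₂ - 1) * (ξ * ((p : ℤ) ^ a * y))) +
        ((p : ℤ) ^ (m - 2 * a) * ((p : ℤ) ^ a * (p : ℤ) ^ a)) * (w₂ * y ^ 2) := by ring
  rw [h3, ← hm, hc]
  ring

/-- the polynomial of the third invariance -/
theorem dk_P3 (p m a : ℕ) (w₂ w₃ ξ : ℤ) (ha : 3 * a ≤ m) (h2 : (p : ℤ) ^ m ∣ 2 * w₂ - 1)
    (h3 : (p : ℤ) ^ m ∣ 3 * w₃ - 1) (y : ℤ) :
    (p : ℤ) ^ m ∣ (C ((p : ℤ) ^ (m - 3 * a)) *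
        (C w₃ * X ^ 3 - C (2 * ξ) * (C w₂ * X ^ 2) + C (ξ ^ 2) * X) : ℤ[X]).eval
        (ξ + (p : ℤ) ^ a * y) -
      (C ((p : ℤ) ^ (m - 3 * a)) *
        (C w₃ * X ^ 3 - C (2 * ξ) * (C w₂ * X ^ 2) + C (ξ ^ 2) * X) : ℤ[X]).eval ξ := by
  obtain ⟨c, hc⟩ := h2
  obtain ⟨d, hd⟩ := h3
  have hm : (p : ℤ) ^ m = (p : ℤ) ^ (m - 3 * a) * ((p : ℤ) ^ a * (p : ℤ) ^ a * (p : ℤ) ^ a) := by
    rw [← pow_add, ← pow_add, ← pow_add]; congr 1; omega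
  refine ⟨(p : ℤ) ^ (m - 3 * a) * (d * (ξ ^ 2 * ((p : ℤ) ^ a * y) + ξ * ((p : ℤ) ^ a * y) ^ 2)
    - c * (2 * ξ ^ 2 * ((p : ℤ) ^ a * y) + ξ * ((p : ℤ) ^ a * y) ^ 2)) + w₃ * y ^ 3, ?_⟩
  simp only [eval_mul, eval_C, eval_sub, eval_add, eval_pow, eval_X]
  have h4 : (p : ℤ) ^ (m - 3 * a) * (w₃ * (ξ + (p : ℤ) ^ a * y) ^ 3 -
        2 * ξ * (w₂ * (ξ + (p : ℤ) ^ a * y) ^ 2) + ξ ^ 2 * (ξ + (p : ℤ) ^ a * y)) -
      (p : ℤ) ^ (m - 3 * a) * (w₃ * ξ ^ 3 - 2 * ξ * (w₂ * ξ ^ 2) + ξ ^ 2 * ξ) =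
      (p : ℤ) ^ (m - 3 * a) * ((3 * w₃ - 1) * (ξ ^ 2 * ((p : ℤ) ^ a * y) +
          ξ * ((p : ℤ) ^ a * y) ^ 2)
        - (2 * w₂ - 1) * (2 * ξ ^ 2 * ((p : ℤ) ^ a * y) + ξ * ((p : ℤ) ^ a * y) ^ 2)) +
      ((p : ℤ) ^ (m - 3 * a) * ((p : ℤ) ^ a * (p : ℤ) ^ a * (p : ℤ) ^ a)) * (w₃ * y ^ 3) := by
    ring
  rw [h4, ← hm, hc, hd]
  ring

theorem dk_tau {G : Type} [AddCommGroup G] (τ : ℤ[X] →+ G) (n : ℕ) (P : ℤ[X]) :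
    n • τ P = τ (C (n : ℤ) * P) := by
  rw [← map_nsmul]
  congr 1
  rw [nsmul_eq_mul]
  simp

theorem dk_tauz {G : Type} [AddCommGroup G] (τ : ℤ[X] →+ G) (n : ℤ) (P : ℤ[X]) :
    n • τ P = τ (C n * P) := by
  rw [← map_zsmul]
  congr 1
  rw [zsmul_eq_mul]
  simp

theorem pf_DK (hEX : T_EX) (hDL : T_DL) (hSL : T_SL) : V_DK := by
  intro p m a r ξ w₂ w₃ G _ τ F hp hm h2 h3 hF
  obtain ⟨hex, -⟩ := hEX
  obtain ⟨hd1, hd2, -⟩ := hDL p 3 m a G τ F ξ hp (by norm_num) (by omega) hF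
  obtain ⟨-, -, hs3⟩ := hSL p G (vv p m (a + 1) τ) (by omega)
  -- directions
  have e1 : p ^ (m - a - 1) • τ X = vv p m (a + 1) τ := by
    rw [dk_tau]
    unfold vv
    congr 3
  have e2 : p ^ (m - a - a) • (τ (C w₂ * X ^ 2) - (ξ : ℤ) • τ X) =
      τ (C ((p : ℤ) ^ (m - 2 * a)) * (C w₂ * X ^ 2 - C (ξ : ℤ) * X)) := by
    rw [dk_tauz, ← map_sub, dk_tau]
    congr 3
    push_cast
    congr 1
    omega
  have e3 : p ^ (m - a - 2 * a) • (τ (C w₃ * X ^ 3) - (2 * (ξ : ℤ)) • τ (C w₂ * X ^ 2) +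
      (ξ : ℤ) ^ 2 • τ X) =
      τ (C ((p : ℤ) ^ (m - 3 * a)) *
        (C w₃ * X ^ 3 - C (2 * (ξ : ℤ)) * (C w₂ * X ^ 2) + C ((ξ : ℤ) ^ 2) * X)) := by
    rw [dk_tauz, dk_tauz, ← map_sub, ← map_add, dk_tau]
    congr 3
    push_cast
    congr 1
    omega
  have hdeg2 : (C ((p : ℤ) ^ (m - 2 * a)) * (C w₂ * X ^ 2 - C (ξ : ℤ) * X) : ℤ[X]).natDegree ≤ 3 := by
    refine le_trans (b := 2) ?_ (by norm_num)
    compute_degree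
  have hdeg3 : (C ((p : ℤ) ^ (m - 3 * a)) *
      (C w₃ * X ^ 3 - C (2 * (ξ : ℤ)) * (C w₂ * X ^ 2) + C ((ξ : ℤ) ^ 2) * X) : ℤ[X]).natDegree
      ≤ 3 := by
    compute_degree
  have hP2 := dk_P2 p m a w₂ (ξ : ℤ) (by omega) h2
  have hP3 := dk_P3 p m a w₂ w₃ (ξ : ℤ) (by omega) h2 h3
  have hdlt2 : ∀ g, dlt p a F ξ (g + τ (C ((p : ℤ) ^ (m - 2 * a)) *
      (C w₂ * X ^ 2 - C (ξ : ℤ) * X))) = dlt p a F ξ g := by
    intro g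
    have := hd1 (C ((p : ℤ) ^ (m - 2 * a)) * (C w₂ * X ^ 2 - C (ξ : ℤ) * X)) 0 hdeg2
      (fun y => by simpa using hP2 y) g
    simpa using this
  have hdlt3 : ∀ g, dlt p a F ξ (g + τ (C ((p : ℤ) ^ (m - 3 * a)) *
      (C w₃ * X ^ 3 - C (2 * (ξ : ℤ)) * (C w₂ * X ^ 2) + C ((ξ : ℤ) ^ 2) * X))) =
      dlt p a F ξ g := by
    intro g
    have := hd1 (C ((p : ℤ) ^ (m - 3 * a)) *
      (C w₃ * X ^ 3 - C (2 * (ξ : ℤ)) * (C w₂ * X ^ 2) + C ((ξ : ℤ) ^ 2) * X)) 0 hdeg3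
      (fun y => by simpa using hP3 y) g
    simpa using this
  have hper : ∀ g, dlt p a F ξ (g + p • vv p m (a + 1) τ) = dlt p a F ξ g := by
    intro g
    have : p • vv p m (a + 1) τ = τ (C ((p : ℤ) ^ (m - a)) * X) := by
      unfold vv
      rw [dk_tau, ← mul_assoc, ← C_mul]
      congr 3
      rw [← pow_succ']
      congr 1
      omega
    rw [this]
    exact hd2 g
  have hs := (hs3 (dlt p a F ξ) hper).2 r
  refine ⟨⟨?_, ?_, ?_⟩, ?_⟩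
  · intro g
    rw [e1]
    have := hs 1 g
    simpa using this
  · intro g
    rw [e2]
    exact dk_slc_inv _ _ _ _ _ hdlt2 g
  · intro g
    rw [e3]
    exact dk_slc_inv _ _ _ _ _ hdlt3 g
  -- the weights
  have hcl : ∀ (P : ℤ[X]), P.natDegree ≤ 3 →
      (∀ i : ℕ, i < p → ∀ y : ℤ, (p : ℤ) ^ (a + 1) ∣ y - ((ξ + p ^ a * i : ℕ) : ℤ) →
        (p : ℤ) ^ m ∣ P.eval y - P.eval ((ξ + p ^ a * i : ℕ) : ℤ)) → ∀ g,
      (p : ℝ) * ∑ i ∈ range p, ‖F (ξ + p ^ a * i) (g + τ P)‖ ^ 2 =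
        (p : ℝ) * ∑ i ∈ range p, ‖F (ξ + p ^ a * i) g‖ ^ 2 := by
    intro P hP hP' g
    congr 1
    apply Finset.sum_congr rfl
    intro i hi
    rw [hF i (Finset.mem_range.mp hi) P hP (hP' i (Finset.mem_range.mp hi)) g, norm_mul, hex,
      one_mul]
  have hgen : ∀ (P : ℤ[X]), (∀ y : ℤ, (p : ℤ) ^ m ∣ P.eval ((ξ : ℤ) + (p : ℤ) ^ a * y) -
      P.eval (ξ : ℤ)) → ∀ i : ℕ, i < p → ∀ y : ℤ, (p : ℤ) ^ (a + 1) ∣ y - ((ξ + p ^ a * i : ℕ) : ℤ) →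
        (p : ℤ) ^ m ∣ P.eval y - P.eval ((ξ + p ^ a * i : ℕ) : ℤ) := by
    intro P hP i _ y hy
    obtain ⟨c, hc⟩ := hy
    have h4 : y = (ξ : ℤ) + (p : ℤ) ^ a * ((p : ℤ) * c + i) := by
      push_cast at hc
      rw [pow_succ] at hc
      linear_combination hc
    have h5 := hP ((p : ℤ) * c + i)
    have h6 := hP i
    rw [← h4] at h5
    push_cast
    have h7 := dvd_sub h5 h6
    rwa [sub_sub_sub_cancel_right] at h7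
  refine ⟨?_, ?_, ?_⟩
  · intro g
    simp only
    rw [e1]
    unfold vv
    apply hcl
    · refine le_trans (b := 1) ?_ (by norm_num)
      compute_degree
    · intro i _ y hy
      simp only [eval_mul, eval_C, eval_X]
      rw [← mul_sub]
      have : (p : ℤ) ^ m = (p : ℤ) ^ (m - (a + 1)) * (p : ℤ) ^ (a + 1) := by
        rw [← pow_add]; congr 1; omega
      rw [this]
      exact mul_dvd_mul_left _ hy
  · intro g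
    simp only
    rw [e2]
    exact hcl _ hdeg2 (hgen _ hP2) g
  · intro g
    simp only
    rw [e3]
    exact hcl _ hdeg3 (hgen _ hP3) g

end Pool.Agent.H48.VQ
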