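import Pool.Agent.H39.VQ.Targets

/-!
# The bound for `Om` in degree three (module OB of the vq board)
-/

set_option autoImplicit false

open Finset Polynomial

namespace Pool.Agent.H48.VQ

open Pool.Agent.H11.CV Pool.Agent.H39.VQ

theorem ob_cut_le (lam : ℝ) (z : ℂ) : ‖cut lam z‖ ≤ ‖z‖ := by
  unfold cut
  split_ifs
  · exact le_refl _
  · simp

theorem ob_pr_le {G : Type} [AddCommGroup G] (p n : ℕ) (lam : ℝ) (f : ℕ → G → ℂ) (hp : 1 < p)
    (hBd : Bd p n f) : ∀ j : ℕ, j ≤ n → ∀ ξ : ℕ, ξ < p ^ (n - j) → ∀ g,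
      ‖pr p n lam f j ξ g‖ ≤ (p : ℝ) ^ j := by
  intro j
  induction j with
  | zero =>
    intro _ ξ hξ g
    simpa [pr] using hBd ξ (by simpa using hξ) g
  | succ j ih =>
    intro hj ξ hξ g
    have h1 : pr p n lam f (j + 1) ξ g =
        ∑ i ∈ range p, cut lam (pr p n lam f j (ξ + p ^ (n - (j + 1)) * i) g) := rfl
    rw [h1]
    refine (norm_sum_le _ _).trans ?_
    have h2 : ∀ i ∈ range p, ‖cut lam (pr p n lam f j (ξ + p ^ (n - (j + 1)) * i) g)‖ ≤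
        (p : ℝ) ^ j := by
      intro i hi
      refine (ob_cut_le _ _).trans (ih (by omega) _ ?_ g)
      have h3 : n - j = (n - (j + 1)) + 1 := by omega
      have h4 := Finset.mem_range.mp hi
      rw [h3, pow_succ]
      have h5 : p ^ (n - (j + 1)) * i ≤ p ^ (n - (j + 1)) * (p - 1) :=
        Nat.mul_le_mul_left _ (by omega)
      have h6 : p ^ (n - (j + 1)) * p = p ^ (n - (j + 1)) * (p - 1) + p ^ (n - (j + 1)) := by
        obtain ⟨q, rfl⟩ : ∃ q, p = q + 1 := ⟨p - 1, by omega⟩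
        simp only [Nat.add_sub_cancel]
        ring
      omega
    refine (Finset.sum_le_sum h2).trans ?_
    rw [Finset.sum_const, Finset.card_range, nsmul_eq_mul, pow_succ, mul_comm]

/-- balancing -/
theorem ob_bal (X N lam D S E : ℝ) (hX : 0 < X) (hN : 0 < N) (hlam : 0 < lam) (hD : 1 ≤ D)
    (hE : 0 ≤ E) (h1 : S ≤ lam ^ 14 * E) (h2 : S ≤ D * (X / N) ^ 5 * lam ^ 4 * E) :
    N ^ 4 * S ≤ D ^ ((4 : ℝ) / 5) * lam ^ 6 * X ^ 4 * E := by
  obtain ⟨u, hu⟩ : ∃ u : ℝ, u = D ^ ((1 : ℝ) / 5) := ⟨_, rfl⟩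
  have hu0 : 0 < u := by rw [hu]; positivity
  have hu4 : D ^ ((4 : ℝ) / 5) = u ^ 4 := by
    rw [hu, ← Real.rpow_natCast, ← Real.rpow_mul (by linarith)]
    norm_num
  have hu5 : D = u ^ 5 := by
    rw [hu, ← Real.rpow_natCast, ← Real.rpow_mul (by linarith)]
    norm_num
  obtain ⟨t, ht⟩ : ∃ t : ℝ, t = N * lam ^ 2 / X := ⟨_, rfl⟩
  have ht0 : 0 < t := by rw [ht]; positivity
  rw [hu4]
  rcases le_total t u with h | h
  · have h3 : N ^ 4 * S ≤ N ^ 4 * (lam ^ 14 * E) := mul_le_mul_of_nonneg_left h1 (by positivity)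
    have h4 : N ^ 4 * (lam ^ 14 * E) = t ^ 4 * lam ^ 6 * X ^ 4 * E := by
      rw [ht]; field_simp
    rw [h4] at h3
    refine h3.trans ?_
    gcongr
  · have h3 : N ^ 4 * S ≤ N ^ 4 * (D * (X / N) ^ 5 * lam ^ 4 * E) :=
      mul_le_mul_of_nonneg_left h2 (by positivity)
    have h4 : N ^ 4 * (D * (X / N) ^ 5 * lam ^ 4 * E) = (D / t) * lam ^ 6 * X ^ 4 * E := by
      rw [ht]; field_simp
    rw [h4] at h3
    refine h3.trans ?_
    have h5 : D / t ≤ u ^ 4 := by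
      rw [div_le_iff₀ ht0, hu5]
      calc u ^ 5 = u ^ 4 * u := by ring
        _ ≤ u ^ 4 * t := mul_le_mul_of_nonneg_left h (by positivity)
    gcongr

theorem ob_Om {G : Type} [AddCommGroup G] (hPI : T_PI) (hSQ : T_SQ) (hCC : T_CC) (p n k : ℕ)
    (lam : ℝ) (f : ℕ → G → ℂ) (hp : 1 < p) (hkn : k + 1 ≤ n) (hBd : Bd p n f) (g : G)
    (hg : g ∈ Om p n lam f (k + 1)) :
    (p : ℝ) ^ n / (n : ℝ) ≤
      ‖∑ ξ ∈ range (p ^ (n - (k + 1))), dlt p (n - (k + 1)) (pt p n lam f k) ξ g‖ ∧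
    ∑ ξ ∈ range (p ^ (n - k)), ‖pt p n lam f k ξ g‖ ^ 2 ≤ 3 * (p : ℝ) ^ n := by
  have h1 := hPI p n k lam G f g hp (by omega)
  obtain ⟨hg1, hg2⟩ := hg
  obtain ⟨hs1, hs2, hs3, hs4, hs5⟩ := hSQ p n lam G f g hp
  have h3 := hs3 k (by omega)
  obtain ⟨hc1, hc2, hc3⟩ := hCC p n k hp (by omega)
  have hk : sq p n lam f k g ≤ cc p n k := by
    rcases Nat.eq_zero_or_pos k with rfl | hk
    · rw [hc3]
      exact hs2 hBd
    · exact hg2 k hk (by omega)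
  have hc4 := hc1 (by omega)
  constructor
  · rw [← h1, Complex.norm_real, Real.norm_eq_abs]
    refine le_trans ?_ (le_abs_self _)
    have hn : (0 : ℝ) < n := by exact_mod_cast (by omega : 0 < n)
    have h5 : (p : ℝ) ^ n / (n : ℝ) ≤ cc p n k / (n : ℝ) := by gcongr; exact hc4.1
    linarith
  · linarith [hc4.2]

theorem pf_OB (hCD : V_CD) (hB2 : T_B2) (hPB : T_PB) (hSQ : T_SQ) (hPI : T_PI) (hCC : T_CC) :
    V_OB := by
  intro p hp hp3
  have hp1 : 1 < p := by omega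
  have hpR : (1 : ℝ) < p := by exact_mod_cast hp1
  have hKK : KK 3 = 6 := by norm_num [KK]
  obtain ⟨C0, hC0, hCD⟩ := hCD p 2 hp hp3
  obtain ⟨C1, hC1, hB2⟩ := hB2 p 3 8 hp1 (by norm_num) (by rw [hKK]; norm_num)
  have hlC1 : 0 ≤ Real.log C1 := Real.log_nonneg hC1
  refine ⟨C0 + 18 + 4 * Real.log C1, by positivity, ?_⟩
  intro n j Dst lam G _ _ τ f hj hjn hDst hlam hLev hFam hBd
  obtain ⟨k, rfl⟩ : ∃ k, j = k + 1 := ⟨j - 1, by omega⟩
  have hn1 : (1 : ℝ) ≤ n := by exact_mod_cast (by omega : 1 ≤ n)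
  have hn0 : (0 : ℝ) < n := by linarith
  have hlam0 : 0 < lam := by linarith
  have hpn : (n : ℝ) ≤ (p : ℝ) ^ n := by
    have : n < p ^ n := Nat.lt_pow_self hp1
    exact_mod_cast this.le
  have hY1 : 1 ≤ (p : ℝ) ^ n / n := by rw [le_div_iff₀ hn0]; linarith
  obtain ⟨pb1, -, pb3⟩ := hPB p 3 n lam G τ f hp1 (by norm_num) hFam
  have hEn0 : 0 ≤ En p n f := by
    unfold En
    exact Finset.sum_nonneg fun _ _ => Finset.sum_nonneg fun _ _ => by positivity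
  have hak : n - (k + 1) + 1 = n - k := by omega
  have hcd := hCD n (3 * n) (n - (k + 1)) G τ (pt p n lam f k) (1 / (3 * n)) ((p : ℝ) ^ n / n)
    (by omega) (by omega) (by linarith) (by
      rw [← one_div]
      apply one_div_le_one_div_of_le (by positivity)
      nlinarith) (by
      rw [div_le_one (by positivity)]
      linarith) (by
      intro ξ hξ
      rw [hak] at hξ ⊢
      exact (pb1 k (by omega) ξ hξ).2) (by
      intro ξ hξ g
      rw [hak] at hξ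
      have h1 : ‖pt p n lam f k ξ g‖ ≤ (p : ℝ) ^ k :=
        (ob_cut_le _ _).trans (ob_pr_le p n lam f hp1 hBd k (by omega) ξ hξ g)
      have h2 : ‖pt p n lam f k ξ g‖ ^ 2 ≤ ((p : ℝ) ^ k) ^ 2 :=
        pow_le_pow_left₀ (norm_nonneg _) h1 2
      have h3 : ((p : ℝ) ^ k) ^ 2 ≤ (p : ℝ) ^ (2 * (n + 1)) := by
        rw [← pow_mul]
        exact pow_le_pow_right₀ hpR.le (by omega)
      have h4 : 0 ≤ (p : ℝ) ^ (2 * (n + 1)) := by positivity
      nlinarith)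
  rw [hak] at hcd
  have hsub : cnt (Om p n lam f (k + 1)) ≤ cnt {g : G | (p : ℝ) ^ n / n ≤
      ‖∑ ξ ∈ range (p ^ (n - (k + 1))), dlt p (n - (k + 1)) (pt p n lam f k) ξ g‖ ∧
      1 / (3 * (n : ℝ)) * ∑ ξ ∈ range (p ^ (n - k)), ‖pt p n lam f k ξ g‖ ^ 2 ≤
        ‖∑ ξ ∈ range (p ^ (n - (k + 1))), dlt p (n - (k + 1)) (pt p n lam f k) ξ g‖} := by
    classical
    unfold cnt
    have : (univ.filter fun g => g ∈ Om p n lam f (k + 1)) ⊆ univ.filter fun g => g ∈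
        {g : G | (p : ℝ) ^ n / n ≤
      ‖∑ ξ ∈ range (p ^ (n - (k + 1))), dlt p (n - (k + 1)) (pt p n lam f k) ξ g‖ ∧
      1 / (3 * (n : ℝ)) * ∑ ξ ∈ range (p ^ (n - k)), ‖pt p n lam f k ξ g‖ ^ 2 ≤
        ‖∑ ξ ∈ range (p ^ (n - (k + 1))), dlt p (n - (k + 1)) (pt p n lam f k) ξ g‖} := by
      intro g hg
      have hg' : g ∈ Om p n lam f (k + 1) := by simpa using hg
      obtain ⟨h1, h2⟩ := ob_Om hPI hSQ hCC p n k lam f hp1 (by omega) hBd g hg'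
      simp only [mem_filter, mem_univ, true_and, Set.mem_ofPred_eq]
      refine ⟨h1, le_trans ?_ h1⟩
      have h3 : 1 / (3 * (n : ℝ)) * ∑ ξ ∈ range (p ^ (n - k)), ‖pt p n lam f k ξ g‖ ^ 2 ≤
          1 / (3 * (n : ℝ)) * (3 * (p : ℝ) ^ n) := mul_le_mul_of_nonneg_left h2 (by positivity)
      refine h3.trans (le_of_eq ?_)
      field_simp
    exact_mod_cast Finset.card_le_card this
  obtain ⟨S, hS⟩ : ∃ S : ℝ, S = ∑ ξ ∈ range (p ^ (n - k)), ∑ g, ‖pt p n lam f k ξ g‖ ^ 16 :=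
    ⟨_, rfl⟩
  rw [← hS] at hcd
  have hb1 : S ≤ lam ^ 14 * En p n f := by
    rw [hS]
    calc ∑ ξ ∈ range (p ^ (n - k)), ∑ g, ‖pt p n lam f k ξ g‖ ^ 16 ≤
          ∑ ξ ∈ range (p ^ (n - k)), ∑ g, lam ^ 14 * ‖pt p n lam f k ξ g‖ ^ 2 := by
          refine Finset.sum_le_sum fun ξ _ => Finset.sum_le_sum fun g _ => ?_
          have h1 : (16 : ℕ) = 14 + 2 := by norm_num
          rw [h1, pow_add]
          refine mul_le_mul_of_nonneg_right ?_ (by positivity)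
          exact pow_le_pow_left₀ (norm_nonneg _)
            ((hSQ p n lam G f g hp1).2.2.2.1 hlam0.le k ξ) _
      _ = lam ^ 14 * ∑ ξ ∈ range (p ^ (n - k)), ∑ g, ‖pt p n lam f k ξ g‖ ^ 2 := by
          rw [Finset.mul_sum]
          refine Finset.sum_congr rfl fun ξ _ => ?_
          rw [Finset.mul_sum]
      _ ≤ lam ^ 14 * En p n f := mul_le_mul_of_nonneg_left (pb3 k (by omega)) (by positivity)
  have hb2 : S ≤ (C1 * ((n : ℝ) + 1) * Dst) *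
      ((p : ℝ) ^ n / (p : ℝ) ^ (n - (k + 1))) ^ 5 * lam ^ 4 * En p n f := by
    have h := hB2 n k Dst lam G τ f hDst hlam (by omega) (fun i hi => hLev i (by omega)) hFam hBd
    rw [hKK] at h
    norm_num at h
    rw [hS]
    refine le_trans h ?_
    have hXN : (p : ℝ) ^ n / (p : ℝ) ^ (n - (k + 1)) = (p : ℝ) ^ (k + 1) := by
      rw [div_eq_iff (by positivity), ← pow_add]
      congr 1; omega
    rw [hXN]
    have h5 : (p : ℝ) ^ (k * 5) ≤ ((p : ℝ) ^ (k + 1)) ^ 5 := by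
      rw [← pow_mul]
      exact pow_le_pow_right₀ hpR.le (by omega)
    have h6 : 0 ≤ C1 * ((n : ℝ) + 1) * Dst := by positivity
    gcongr
  have hC1n : 1 ≤ C1 * ((n : ℝ) + 1) := by nlinarith
  have hD1 : 1 ≤ C1 * ((n : ℝ) + 1) * Dst := by nlinarith
  have hbal := ob_bal ((p : ℝ) ^ n) ((p : ℝ) ^ (n - (k + 1))) lam (C1 * ((n : ℝ) + 1) * Dst) S
    (En p n f) (by positivity) (by positivity) hlam0 hD1 hEn0 hb1 hb2
  have hDth : (C1 * ((n : ℝ) + 1) * Dst) ^ ((4 : ℝ) / 5) ≤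
      C1 * ((n : ℝ) + 1) * Dst ^ ((4 : ℝ) / 5) := by
    rw [Real.mul_rpow (by linarith) (by linarith)]
    refine mul_le_mul_of_nonneg_right ?_ (by positivity)
    calc (C1 * ((n : ℝ) + 1)) ^ ((4 : ℝ) / 5) ≤ (C1 * ((n : ℝ) + 1)) ^ (1 : ℝ) :=
          Real.rpow_le_rpow_of_exponent_le hC1n (by norm_num)
      _ = _ := Real.rpow_one _
  obtain ⟨X, hX⟩ : ∃ X : ℝ, X = (p : ℝ) ^ n := ⟨_, rfl⟩
  obtain ⟨c, hc⟩ : ∃ c : ℝ, c = cnt (Om p n lam f (k + 1)) := ⟨_, rfl⟩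
  obtain ⟨E0, hE0⟩ : ∃ E0 : ℝ, E0 = Real.exp (C0 * Real.log ((n : ℝ) + 2) ^ 2) := ⟨_, rfl⟩
  have hE00 : 0 < E0 := by rw [hE0]; positivity
  have hX0 : 0 < X := by rw [hX]; positivity
  have hc0 : 0 ≤ c := by rw [hc]; unfold cnt; positivity
  have hmain : c * (X / n) ^ 8 ≤
      E0 * (C1 * ((n : ℝ) + 1) * Dst ^ ((4 : ℝ) / 5) * lam ^ 6 * X ^ 4 * En p n f) := by
    calc c * (X / n) ^ 8 ≤ cnt {g : G | (p : ℝ) ^ n / n ≤
          ‖∑ ξ ∈ range (p ^ (n - (k + 1))), dlt p (n - (k + 1)) (pt p n lam f k) ξ g‖ ∧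
          1 / (3 * (n : ℝ)) * ∑ ξ ∈ range (p ^ (n - k)), ‖pt p n lam f k ξ g‖ ^ 2 ≤
          ‖∑ ξ ∈ range (p ^ (n - (k + 1))), dlt p (n - (k + 1)) (pt p n lam f k) ξ g‖} *
          (X / n) ^ 8 := by
          rw [hc]
          exact mul_le_mul_of_nonneg_right hsub (by positivity)
      _ ≤ E0 * (p : ℝ) ^ (4 * (n - (k + 1))) * S := by rw [hX, hE0]; exact hcd
      _ = E0 * (((p : ℝ) ^ (n - (k + 1))) ^ 4 * S) := by
          rw [← pow_mul, mul_comm (n - (k + 1)) 4]; ring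
      _ ≤ E0 * ((C1 * ((n : ℝ) + 1) * Dst) ^ ((4 : ℝ) / 5) * lam ^ 6 * ((p : ℝ) ^ n) ^ 4 *
            En p n f) := mul_le_mul_of_nonneg_left hbal hE00.le
      _ ≤ _ := by rw [← hX]; gcongr
  -- remove `X ^ 4`
  have hstep : c * X ^ 4 ≤ (n : ℝ) ^ 8 *
      (E0 * (C1 * ((n : ℝ) + 1) * Dst ^ ((4 : ℝ) / 5) * lam ^ 6 * En p n f)) := by
    have hX4 : 0 < X ^ 4 := by positivity
    have h1 : c * X ^ 4 * X ^ 4 = (n : ℝ) ^ 8 * (c * (X / n) ^ 8) := by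
      rw [div_pow]
      field_simp
    have h2 : c * X ^ 4 * X ^ 4 ≤ (n : ℝ) ^ 8 *
        (E0 * (C1 * ((n : ℝ) + 1) * Dst ^ ((4 : ℝ) / 5) * lam ^ 6 * En p n f)) * X ^ 4 := by
      rw [h1]
      calc _ ≤ (n : ℝ) ^ 8 *
            (E0 * (C1 * ((n : ℝ) + 1) * Dst ^ ((4 : ℝ) / 5) * lam ^ 6 * X ^ 4 * En p n f)) :=
            mul_le_mul_of_nonneg_left hmain (by positivity)
        _ = _ := by ring
    exact le_of_mul_le_mul_right h2 hX4
  rw [← hX, ← hc]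
  refine hstep.trans ?_
  -- constants
  obtain ⟨L, hL⟩ : ∃ L : ℝ, L = Real.log ((n : ℝ) + 2) := ⟨_, rfl⟩
  have hLh : 1 / 2 ≤ L := by
    rw [hL]
    have h1 : Real.log 2 ≤ Real.log ((n : ℝ) + 2) := Real.log_le_log (by norm_num) (by linarith)
    have := Real.log_two_gt_d9
    linarith
  have hfac : (n : ℝ) ^ 8 * (E0 * (C1 * ((n : ℝ) + 1))) ≤
      Real.exp ((C0 + 18 + 4 * Real.log C1) * Real.log ((n : ℝ) + 2) ^ 2) := by
    have h1 : (n : ℝ) ^ 8 * ((n : ℝ) + 1) ≤ ((n : ℝ) + 2) ^ 9 := by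
      calc (n : ℝ) ^ 8 * ((n : ℝ) + 1) ≤ ((n : ℝ) + 2) ^ 8 * ((n : ℝ) + 2) := by
            gcongr <;> linarith
        _ = ((n : ℝ) + 2) ^ 9 := by ring
    have h2 : ((n : ℝ) + 2) ^ 9 = Real.exp (9 * L) := by
      have : (n : ℝ) + 2 = Real.exp L := by rw [hL, Real.exp_log (by linarith)]
      rw [this, ← Real.exp_nat_mul]
      norm_num
    have h3 : C1 = Real.exp (Real.log C1) := by rw [Real.exp_log (by linarith)]
    calc (n : ℝ) ^ 8 * (E0 * (C1 * ((n : ℝ) + 1))) =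
          ((n : ℝ) ^ 8 * ((n : ℝ) + 1)) * C1 * E0 := by ring
      _ ≤ Real.exp (9 * L) * Real.exp (Real.log C1) * E0 := by
          rw [← h3, ← h2]
          gcongr
      _ = Real.exp (9 * L + Real.log C1 + C0 * L ^ 2) := by
          rw [hE0, ← hL, Real.exp_add, Real.exp_add]
      _ ≤ _ := by
          rw [← hL]
          apply Real.exp_le_exp.mpr
          have h5 : 1 ≤ 4 * L ^ 2 := by nlinarith
          have h6 : L ≤ 2 * L ^ 2 := by nlinarith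
          nlinarith
  calc (n : ℝ) ^ 8 * (E0 * (C1 * ((n : ℝ) + 1) * Dst ^ ((4 : ℝ) / 5) * lam ^ 6 * En p n f)) =
        ((n : ℝ) ^ 8 * (E0 * (C1 * ((n : ℝ) + 1)))) *
          (Dst ^ ((4 : ℝ) / 5) * lam ^ 6 * En p n f) := by ring
    _ ≤ Real.exp ((C0 + 18 + 4 * Real.log C1) * Real.log ((n : ℝ) + 2) ^ 2) *
          (Dst ^ ((4 : ℝ) / 5) * lam ^ 6 * En p n f) :=
        mul_le_mul_of_nonneg_right hfac (by positivity)
    _ = _ := by ring

end Pool.Agent.H48.VQ
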